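import Pool.Agent.H.MP_c47ae4_an.C

set_option autoImplicit false
open MeasureTheory ProbabilityTheory Finset Filter
open scoped ENNReal NNReal

namespace Pool.Agent.Results.MP_c47ae4_an.No

open Pool.Agent.H.MP_c47ae4_an

theorem result (m : ℕ → ℕ) [∀ k, NeZero (m k)] (h2 : ∀ k, 2 ≤ m k) (B : ℕ) (hB : ∀ k, m k ≤ B)
    (p : ℝ) (p0 : 0 < p) (p1 : p ≤ 1) : ∃ C : ℝ≥0, ∀ f : ℕ → G m → ℂ, Martingale f (F m) (mu m) →
      ⨆ n, nL m p (R m f (M m n)) ≤ C * nH m p f := by
  obtain ⟨C, C0, hC⟩ := maxi hB (K := (4 * B) ^ p) (τ := (3 / 4) ^ (p / 2)) (by positivity)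
    (by positivity) (Real.rpow_lt_one (by norm_num) (by norm_num) (by positivity))
  obtain ⟨E, hE⟩ : ∃ E : ℝ, E = (4 * B) ^ p := ⟨_, rfl⟩
  have E0 : 0 ≤ E := by rw [hE]; positivity
  refine ⟨(1 + E * C).toNNReal ^ (1 / p), fun f hf => iSup_le fun n => ?_⟩
  let g : ℕ → G m → ℝ := fun j x => (range (j + 1)).sup' nonempty_range_add_one fun i => ‖f i x‖ ^ p
  have gd : ∀ j, dep j (g j) := fun j x y e =>
    sup'_congr _ rfl fun i hi => by
      rw [(dep_of (hf.stronglyMeasurable i)).mono (Nat.le_of_lt_succ (mem_range.1 hi)) x y e]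
  have gl : ∀ i j x, i ≤ j → ‖f i x‖ ^ p ≤ g j x := fun i j x h =>
    le_sup' (fun i => ‖f i x‖ ^ p) (mem_range.2 (Nat.lt_succ_of_le h))
  have g0 : ∀ j x, 0 ≤ g j x := fun j x => le_trans (by positivity) (gl j j x le_rfl)
  obtain ⟨T, Td, T0, Ti, hT⟩ := hC g n gd g0 fun x a b h =>
    sup'_le _ _ fun i hi => gl i b x ((Nat.le_of_lt_succ (mem_range.1 hi)).trans h)
  have pw : ∀ x, ‖R m f (M m n) x‖ ^ p ≤ g n x + E * T x := fun x => by
    have := T0 x
    have := g0 n x
    have a := Rbd h2 hf (n := n) (x := x) (a := g n x ^ p⁻¹) (b := 2 * B * T x ^ p⁻¹) (by positivity)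
      (fun k hk => (Real.le_rpow_inv_iff_of_pos (by positivity) (g0 _ _) p0).2 (gl k n x hk))
      fun k hk => (Vbd h2 hB hf k x).trans (by
        simp only [mul_assoc, ← mul_sum]
        gcongr
        have w : ∀ z : G m, 0 ≤ W (4 * B) (3 / 4) k (k + 1) z := fun z =>
          prod_nonneg fun _ _ => by positivity
        refine (Real.le_rpow_inv_iff_of_pos (sum_nonneg fun y _ => mul_nonneg (w _) (norm_nonneg _))
          (T0 _) p0).2 (le_trans ?_ (hT k hk x))
        refine (le_sum_of_subadditive_on_pred (fun a : ℝ => a ^ p) (0 ≤ ·) (by simp [p0.ne'])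
          (fun a b ha hb => Real.rpow_add_le_add_rpow ha hb p0.le p1) (fun a b => add_nonneg) _
          fun y _ => mul_nonneg (w _) (norm_nonneg _)).trans (sum_le_sum fun y _ => ?_)
        rw [Real.mul_rpow (w _) (norm_nonneg _)]
        refine mul_le_mul (le_of_eq ?_) (gl _ _ _ le_rfl) (by positivity)
          (prod_nonneg fun _ _ => by positivity)
        rw [W, W, ← Real.finsetProd_rpow _ _ fun _ _ => by positivity]
        refine prod_congr rfl fun l _ => ?_
        split_ifs
        · simp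
        · rw [Real.mul_rpow (by positivity) (by positivity), ← Real.rpow_natCast _ 2,
            ← Real.rpow_mul (by norm_num), ← Real.rpow_pow_comm (by norm_num)]
          simp)
    refine (Real.rpow_le_rpow (norm_nonneg _) a p0.le).trans
      ((Real.rpow_add_le_add_rpow (by positivity) (by positivity) p0.le p1).trans_eq ?_)
    rw [Real.rpow_inv_rpow (g0 _ _) p0.ne', show 2 * (2 * B * T x ^ p⁻¹) = 4 * B * T x ^ p⁻¹ by ring,
      Real.mul_rpow (by positivity) (by positivity), Real.rpow_inv_rpow (T0 _) p0.ne', hE]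
  rw [nL, nH, ENNReal.coe_rpow_of_nonneg _ (by positivity), ← ENNReal.mul_rpow_of_nonneg _ _ (by positivity)]
  gcongr
  calc _ ≤ ∫⁻ x, ENNReal.ofReal (g n x + E * T x) ∂mu m := lintegral_mono fun x => by
        rw [← ofReal_norm_eq_enorm, ENNReal.ofReal_rpow_of_nonneg (norm_nonneg _) p0.le]
        exact ENNReal.ofReal_le_ofReal (pw x)
    _ ≤ ENNReal.ofReal ((1 + E * C) * ∫ x, g n x ∂mu m) := by
        rw [← ofReal_integral_eq_lintegral_ofReal (f := fun x => g n x + E * T x) ((gd n).int.add (Td.int.const_mul _))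
          (.of_forall fun x => add_nonneg (g0 _ _) (mul_nonneg E0 (T0 _))),
          integral_add (gd n).int (Td.int.const_mul _), integral_const_mul]
        exact ENNReal.ofReal_le_ofReal (by nlinarith)
    _ ≤ _ := by
        rw [ENNReal.ofReal_mul (by positivity), ofReal_integral_eq_lintegral_ofReal (gd n).int
          (.of_forall (g0 n))]
        refine mul_le_mul_right (lintegral_mono fun x => ?_) _
        obtain ⟨i, -, hi⟩ := exists_mem_eq_sup' (nonempty_range_add_one (n := n)) fun i => ‖f i x‖ ^ p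
        simp only [g, hi]
        rw [← ENNReal.ofReal_rpow_of_nonneg (norm_nonneg _) p0.le, ofReal_norm_eq_enorm]
        gcongr
        exact le_iSup (fun n => ‖f n x‖ₑ) i

end Pool.Agent.Results.MP_c47ae4_an.No
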